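import Pool.Agent.K4H92.ES.Cantor

/-!
# In the Cantor group the nullness in Q1 can be dropped

The definitions `InE` (the ideal `ℰ`), `Cantor` and `coin` are in `Pool/Agent/K4H92/ES/Prod.lean` and
`Pool/Agent/K4H92/ES/Cantor.lean`.

Proof. Let `A` be a null nonmeagre subgroup (Talagrand) and `B` a meagre subgroup outside `ℰ`. In
`2^ω × 2^ω ≅ 2^ω` the subgroup `A × B` is null and meagre. If it were covered by closed null sets
`C_k`, then for each `k` the set of the `x` for which the section `(C_k)_x` has positive measure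
would be a null `F_σ` set, hence meagre; so for some `x ∈ A` all sections `(C_k)_x` are closed null
sets, and they cover `B`.
-/

set_option autoImplicit false

open MeasureTheory Set Topology

namespace Pool.Agent.Results.MP_ff0b57_lc.MeagreSubgroups

open Pool.Agent.K4H92.ES

/-- Subgroups of the Cantor group `(2^ω, +₂)` (each element is its own inverse). -/
def IsSubgroup (G : Set Cantor) : Prop :=
  (fun _ => false) ∈ G ∧ ∀ x ∈ G, ∀ y ∈ G, (fun n => xor (x n) (y n)) ∈ G

/-- Given a null nonmeagre subgroup of `2^ω` (Talagrand: there is one), there is a null and meagre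
subgroup of `2^ω` which is not in `ℰ` if and only if there is a meagre subgroup of `2^ω` which is
not in `ℰ`. -/
theorem result (hT : ∃ A : Set Cantor, IsSubgroup A ∧ coin A = 0 ∧ ¬ IsMeagre A) :
    (∃ G : Set Cantor, IsSubgroup G ∧ coin G = 0 ∧ IsMeagre G ∧ ¬ InE coin G) ↔
      ∃ B : Set Cantor, IsSubgroup B ∧ IsMeagre B ∧ ¬ InE coin B := by
  constructor
  · rintro ⟨G, h1, -, h2, h3⟩
    exact ⟨G, h1, h2, h3⟩
  · rintro ⟨B, hB1, hB2, hB3⟩
    obtain ⟨A, hA1, hA2, hA3⟩ := hT
    have hmap : ∀ S : Set Cantor, coin S = (coin.prod coin) (merge ⁻¹' S) := by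
      intro S
      have h := homeo.toMeasurableEquiv.map_apply (μ := coin.prod coin) S
      have h2 : (coin.prod coin).map homeo.toMeasurableEquiv = coin := map_merge
      rw [h2] at h
      exact h
    refine ⟨split ⁻¹' (A ×ˢ B), ⟨?_, ?_⟩, ?_, ?_, ?_⟩
    · exact ⟨hA1.1, hB1.1⟩
    · rintro x ⟨hx1, hx2⟩ y ⟨hy1, hy2⟩
      exact ⟨hA1.2 _ hx1 _ hy1, hB1.2 _ hx2 _ hy2⟩
    · rw [hmap]
      have h : merge ⁻¹' (split ⁻¹' (A ×ˢ B)) = A ×ˢ B := by
        ext p
        simp only [mem_preimage, split_merge]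
      rw [h, Measure.prod_prod, hA2, zero_mul]
    · have h1 : IsMeagre ((fun x : Cantor => (split x).2) ⁻¹' B) := by
        refine IsMeagre.preimage_of_isOpenMap (continuous_snd.comp continuous_split) ?_ hB2
        exact isOpenMap_snd.comp homeo.symm.isOpenMap
      refine h1.mono ?_
      rintro x ⟨-, hx⟩
      exact hx
    · rintro ⟨C, hC, hsub⟩
      apply main coin coin hA3 hB3
      refine ⟨fun k => merge ⁻¹' (C k), fun k => ⟨(hC k).1.preimage continuous_merge, ?_⟩, ?_⟩
      · rw [← hmap]
        exact (hC k).2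
      · intro p hp
        have h1 : merge p ∈ split ⁻¹' (A ×ˢ B) := by
          rw [mem_preimage, split_merge]
          exact hp
        obtain ⟨k, hk⟩ := mem_iUnion.1 (hsub h1)
        exact mem_iUnion.2 ⟨k, hk⟩

end Pool.Agent.Results.MP_ff0b57_lc.MeagreSubgroups
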